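import Pool.Agent.H.MP_d968d9.C

set_option autoImplicit false

namespace Pool.Agent.Results.MP_d968d9_gt.NoetherianBase

universe u

def RankLE {X : Type u} (Γ : Set (Set X)) (x : X) (n : ℕ) : Prop :=
  ∀ 𝒜 ⊆ Γ, IsAntichain (· ⊆ ·) 𝒜 → (∀ A ∈ 𝒜, x ∈ A) → 𝒜.encard ≤ n

def Noetherian {X : Type u} (Γ : Set (Set X)) : Prop :=
  ¬∃ G : ℕ → Set X, (∀ n, G n ∈ Γ) ∧ ∀ n, G n ⊂ G (n + 1)

def Subinfinite {X : Type u} (Γ : Set (Set X)) : Prop :=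
  ∀ 𝒜 ⊆ Γ, IsAntichain (· ⊆ ·) 𝒜 → (⋂₀ 𝒜).Nonempty → 𝒜.Finite

theorem result :
    (∀ (X : Type u) [TopologicalSpace X] [T1Space X],
      (∃ Γ : Set (Set X), TopologicalSpace.IsTopologicalBasis Γ ∧ ∀ x, ∃ n : ℕ, RankLE Γ x n) →
      ∃ Δ : Set (Set X), TopologicalSpace.IsTopologicalBasis Δ ∧ Noetherian Δ ∧ Subinfinite Δ ∧
        ∀ x, ∃ n : ℕ, RankLE Δ x n) ∧
    ∃ (X : Type) (_ : TopologicalSpace X), T0Space X ∧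
      (∃ Γ : Set (Set X), TopologicalSpace.IsTopologicalBasis Γ ∧ ∀ x, RankLE Γ x 1) ∧
      ∀ Δ : Set (Set X), TopologicalSpace.IsTopologicalBasis Δ → ¬Noetherian Δ := by
  open Pool.Agent.H.MP_d968d9 in
  refine ⟨fun X _ _ ⟨Γ, h1, h2⟩ => ?_, N, inferInstance, n_t0, n_rk, fun Δ h H => H ?_⟩
  · obtain ⟨Δ, h3, h4, h5⟩ := Pool.Agent.H.MP_d968d9.main h1 fun x =>
      (h2 x).imp fun _ h => Pool.Agent.H.MP_d968d9.wd_iff.2 h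
    have h6 := fun x => (h5 x).imp fun _ h => Pool.Agent.H.MP_d968d9.wd_iff.1 h
    exact ⟨Δ, h3, fun ⟨G, a, b⟩ => h4 G (strictMono_nat_of_lt_succ b) a, Pool.Agent.H.MP_d968d9.sub h6, h6⟩
  · obtain ⟨G, a, b⟩ := Pool.Agent.H.MP_d968d9.n_no Δ h
    exact ⟨G, b, fun n => a (Nat.lt_succ_self n)⟩

end Pool.Agent.Results.MP_d968d9_gt.NoetherianBase
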